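import Pool.Agent.H92.RK.Targets

/-!
RB1: the ray inequality with free left end, real form.
-/

open MeasureTheory Set Filter Topology
open scoped ENNReal

namespace Pool.Agent.H59.RK

open Pool.Agent.H92.RK

theorem ioi_of_zero {g : ℝ → ℝ} (hg : Continuous g) {a b : ℝ} (hab : a ≤ b)
    (h0 : ∀ r, b < r → g r = 0) :
    IntegrableOn g (Ioi a) ∧ ∫ r in Ioi a, g r = ∫ r in a..b, g r := by
  constructor
  · rw [← Ioc_union_Ioi_eq_Ioi hab]
    refine IntegrableOn.union ?_ ?_
    · exact (hg.continuousOn.integrableOn_Icc).mono_set Ioc_subset_Icc_self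
    · exact IntegrableOn.congr_fun (f := fun _ : ℝ => (0 : ℝ)) integrableOn_zero
        (fun r hr => (h0 r hr).symm) measurableSet_Ioi
  · rw [intervalIntegral.integral_of_le hab]
    refine setIntegral_eq_of_subset_of_forall_sdiff_eq_zero measurableSet_Ioi
      (fun r hr => hr.1) ?_
    intro r hr
    refine h0 r ?_
    by_contra h
    exact hr.2 ⟨hr.1, not_lt.mp h⟩

/-- The weight. -/
noncomputable def wt (S : Set ℝ) (s : ℝ) : ℝ := S.indicator (fun s => 2 * s) s

theorem wt_int {S : Set ℝ} (hS : IsOpen S) (a b : ℝ) : IntervalIntegrable (wt S) volume a b := by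
  have h : IntervalIntegrable (fun s : ℝ => 2 * s) volume a b :=
    (continuous_const.mul continuous_id).intervalIntegrable _ _
  rw [intervalIntegrable_iff] at h ⊢
  exact h.indicator hS.measurableSet

/-- The rearranged radius. -/
noncomputable def yy (S : Set ℝ) (a r : ℝ) : ℝ := ∫ s in a..r, wt S s

theorem yy_cont {S : Set ℝ} (hS : IsOpen S) (a : ℝ) : Continuous (yy S a) :=
  intervalIntegral.continuous_primitive (fun b c => wt_int hS b c) a

theorem yy_deriv {S : Set ℝ} (hS : IsOpen S) (a : ℝ) {r : ℝ} (hr : r ∈ S) :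
    HasDerivAt (yy S a) (2 * r) r := by
  have hev : wt S =ᶠ[𝓝 r] fun s => 2 * s := by
    filter_upwards [hS.mem_nhds hr] with s hs
    simp only [wt, indicator_of_mem hs]
  have hc : ContinuousAt (wt S) r :=
    ((continuous_const.mul continuous_id).continuousAt).congr hev.symm
  have hm : StronglyMeasurableAtFilter (wt S) (𝓝 r) volume := by
    refine Measurable.stronglyMeasurable ?_ |>.stronglyMeasurableAtFilter
    exact (measurable_const.mul measurable_id).indicator hS.measurableSet
  have h := intervalIntegral.integral_hasDerivAt_right (wt_int hS a r) hm hc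
  have h2 : wt S r = 2 * r := hev.eq_of_nhds
  rw [h2] at h
  exact h

theorem yy_nonneg {S : Set ℝ} {a r : ℝ} (ha : 0 < a) (har : a ≤ r) : 0 ≤ yy S a r := by
  refine intervalIntegral.integral_nonneg har ?_
  intro s hs
  unfold wt
  by_cases h : s ∈ S
  · rw [indicator_of_mem h]
    linarith [hs.1]
  · rw [indicator_of_notMem h]

theorem yy_le {S : Set ℝ} (hS : IsOpen S) {a r ρ : ℝ} (ha : 0 < a) (har : a ≤ r) (hρ : 0 < ρ)
    (h : rv S = ENNReal.ofReal ρ) : yy S a r ≤ ρ := by
  have hi : IntegrableOn (wt S) (Ioc a r) :=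
    (intervalIntegrable_iff_integrableOn_Ioc_of_le har).mp (wt_int hS a r)
  have hnn : 0 ≤ᵐ[volume.restrict (Ioc a r)] wt S := by
    filter_upwards [ae_restrict_mem measurableSet_Ioc] with s hs
    unfold wt
    by_cases h' : s ∈ S
    · rw [indicator_of_mem h']
      show (0 : ℝ) ≤ 2 * s
      linarith [hs.1]
    · rw [indicator_of_notMem h']
      exact le_refl _
  have h1 : ENNReal.ofReal (yy S a r) = ∫⁻ s in Ioc a r, ENNReal.ofReal (wt S s) := by
    unfold yy
    rw [intervalIntegral.integral_of_le har]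
    exact ofReal_integral_eq_lintegral_ofReal hi hnn
  have h2 : ∫⁻ s in Ioc a r, ENNReal.ofReal (wt S s) ≤ rv S := by
    have h3 : ∀ s, ENNReal.ofReal (wt S s) = S.indicator (fun s => ENNReal.ofReal (2 * s)) s := by
      intro s
      unfold wt
      by_cases h' : s ∈ S
      · rw [indicator_of_mem h', indicator_of_mem h']
      · rw [indicator_of_notMem h', indicator_of_notMem h', ENNReal.ofReal_zero]
    simp only [h3]
    rw [lintegral_indicator hS.measurableSet, Measure.restrict_restrict hS.measurableSet]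
    unfold rv
    refine lintegral_mono_set ?_
    intro s hs
    exact ⟨hs.1, ha.trans hs.2.1⟩
  rw [← h1, h] at h2
  exact (ENNReal.ofReal_le_ofReal_iff hρ.le).mp h2

theorem pf_RB1 : T_RB1 := by
  intro S ρ a f f' hS hρ ha hrv hf hR hsupp
  obtain ⟨hfd, hf'c⟩ := hf
  obtain ⟨R, hR⟩ := hR
  have hfc : Continuous f := continuous_iff_continuousAt.mpr fun x => (hfd x).continuousAt
  set b : ℝ := max R a with hb
  have hab : a ≤ b := le_max_right _ _
  have hRb : R ≤ b := le_max_left _ _
  have hf0 : ∀ r, b < r → f r = 0 := fun r hr => hR r (hRb.trans hr.le)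
  have hf'0 : ∀ r, b < r → f' r = 0 := by
    intro r hr
    have hev : f =ᶠ[𝓝 r] fun _ => 0 := by
      filter_upwards [Ioi_mem_nhds hr] with s hs
      exact hf0 s hs
    have h1 : HasDerivAt f 0 r := (hasDerivAt_const r (0 : ℝ)).congr_of_eventuallyEq hev
    exact (hfd r).unique h1
  have c1 : Continuous fun r => f' r ^ 2 * r := (hf'c.pow 2).mul continuous_id
  have c2 : Continuous fun r => Real.pi ^ 2 * r ^ 2 / ρ ^ 2 * f r ^ 2 * r := by
    have : Continuous fun r : ℝ => Real.pi ^ 2 * r ^ 2 / ρ ^ 2 :=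
      (continuous_const.mul (continuous_id.pow 2)).div_const _
    exact (this.mul (hfc.pow 2)).mul continuous_id
  obtain ⟨i1, e1⟩ := ioi_of_zero c1 hab (fun r hr => by rw [hf'0 r hr]; ring)
  obtain ⟨i2, e2⟩ := ioi_of_zero c2 hab (fun r hr => by rw [hf0 r hr]; ring)
  refine ⟨i1, i2, ?_⟩
  rw [e1, e2]
  set y : ℝ → ℝ := yy S a with hy
  have hyc : Continuous y := yy_cont hS a
  have hy0 : y a = 0 := by simp [hy, yy]
  have hynn : ∀ r, a ≤ r → 0 ≤ y r := fun r hr => yy_nonneg ha hr
  have hyle : ∀ r, a ≤ r → y r ≤ ρ := fun r hr => yy_le hS ha hr hρ hrv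
  have hylt : ∀ r ∈ S, a < r → y r < ρ := by
    intro r hr har
    refine lt_of_le_of_ne (hyle r har.le) ?_
    intro he
    have hmax : IsLocalMax y r := by
      filter_upwards [Ioi_mem_nhds har] with s hs
      rw [he]
      exact hyle s hs.le
    have h0 := hmax.hasDerivAt_eq_zero (yy_deriv hS a hr)
    have : 0 < r := ha.trans har
    linarith
  have hang : ∀ r, a ≤ r → y r < ρ → 0 < Real.cos (Real.pi * y r / (2 * ρ)) := by
    intro r hr hlt
    refine Real.cos_pos_of_mem_Ioo ⟨?_, ?_⟩
    · have : 0 ≤ Real.pi * y r / (2 * ρ) :=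
        div_nonneg (mul_nonneg Real.pi_pos.le (hynn r hr)) (by linarith)
      have := Real.pi_pos
      linarith
    · rw [div_lt_div_iff₀ (by linarith) (by norm_num)]
      nlinarith [Real.pi_pos]
  have htan : ∀ r, a ≤ r → y r < ρ → 0 ≤ Real.tan (Real.pi * y r / (2 * ρ)) := by
    intro r hr hlt
    refine Real.tan_nonneg_of_nonneg_of_le_pi_div_two ?_ ?_
    · exact div_nonneg (mul_nonneg Real.pi_pos.le (hynn r hr)) (by linarith)
    · rw [div_le_div_iff₀ (by linarith) (by norm_num)]
      nlinarith [Real.pi_pos]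
  let T : ℝ → ℝ := fun r => Real.tan (Real.pi * y r / (2 * ρ))
  let H : ℝ → ℝ := fun r => -(Real.pi * r ^ 2 / ρ) * T r * f r ^ 2
  let H' : ℝ → ℝ := fun r => -(2 * Real.pi * r / ρ) * T r * f r ^ 2 -
    Real.pi ^ 2 * r ^ 3 / ρ ^ 2 * (1 + T r ^ 2) * f r ^ 2 -
    Real.pi * r ^ 2 / ρ * T r * (2 * f r * f' r)
  have hoff : ∀ r, r ∉ tsupport f → H =ᶠ[𝓝 r] fun _ => 0 := by
    intro r hr
    have : f =ᶠ[𝓝 r] 0 := notMem_tsupport_iff_eventuallyEq.mp hr
    filter_upwards [this] with s hs
    simp only [H]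
    rw [hs]
    simp
  have hTc : ∀ r, a ≤ r → y r < ρ → ContinuousAt T r := by
    intro r hr hlt
    have h1 : ContinuousAt (fun s => Real.pi * y s / (2 * ρ)) r :=
      ((continuous_const.mul hyc).div_const _).continuousAt
    exact ContinuousAt.comp (f := fun s => Real.pi * y s / (2 * ρ)) (g := Real.tan)
      (Real.continuousAt_tan.mpr (hang r hr hlt).ne') h1
  have hcont : ContinuousOn H (Icc a b) := by
    intro r hr
    refine ContinuousAt.continuousWithinAt ?_
    by_cases hs : r ∈ tsupport f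
    · have hlt : y r < ρ := by
        rcases eq_or_lt_of_le hr.1 with h | h
        · rw [← h, hy0]; exact hρ
        · exact hylt r (hsupp hs) h
      have h2 : ContinuousAt (fun s : ℝ => -(Real.pi * s ^ 2 / ρ)) r :=
        (((continuous_const.mul (continuous_id.pow 2)).div_const _).neg).continuousAt
      exact (h2.mul (hTc r hr.1 hlt)).mul (hfc.pow 2).continuousAt
    · exact continuousAt_const.congr (hoff r hs).symm
  have hderiv : ∀ r ∈ Ioo a b, HasDerivAt H (H' r) r := by
    intro r hr
    by_cases hs : r ∈ tsupport f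
    · have hrS := hsupp hs
      have hlt := hylt r hrS hr.1
      have hcos := hang r hr.1.le hlt
      have d1 : HasDerivAt (fun s => Real.pi * y s / (2 * ρ)) (Real.pi * (2 * r) / (2 * ρ)) r :=
        ((yy_deriv hS a hrS).const_mul Real.pi).div_const (2 * ρ)
      have d2 : HasDerivAt T (1 / Real.cos (Real.pi * y r / (2 * ρ)) ^ 2 *
          (Real.pi * (2 * r) / (2 * ρ))) r :=
        HasDerivAt.comp r (Real.hasDerivAt_tan hcos.ne') d1
      have e3 : 1 / Real.cos (Real.pi * y r / (2 * ρ)) ^ 2 = 1 + T r ^ 2 := by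
        simp only [T]
        rw [Real.tan_eq_sin_div_cos]
        field_simp
        nlinarith [Real.sin_sq_add_cos_sq (Real.pi * y r / (2 * ρ))]
      have d3 : HasDerivAt (fun s : ℝ => -(Real.pi * s ^ 2 / ρ)) (-(Real.pi * (2 * r) / ρ)) r := by
        have h := (((hasDerivAt_pow 2 r).const_mul Real.pi).div_const ρ).neg
        exact h.congr_deriv (by norm_num)
      have d4 : HasDerivAt (fun s => f s ^ 2) (2 * f r * f' r) r := by
        have h := (hfd r).pow 2
        exact h.congr_deriv (by norm_num)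
      have d5 : HasDerivAt H ((-(Real.pi * (2 * r) / ρ) * T r + -(Real.pi * r ^ 2 / ρ) *
          (1 / Real.cos (Real.pi * y r / (2 * ρ)) ^ 2 * (Real.pi * (2 * r) / (2 * ρ)))) *
          f r ^ 2 + (-(Real.pi * r ^ 2 / ρ) * T r) * (2 * f r * f' r)) r :=
        (d3.mul d2).mul d4
      refine d5.congr_deriv ?_
      rw [e3]
      simp only [H']
      field_simp
      ring
    · have hz : f r = 0 := image_eq_zero_of_notMem_tsupport hs
      have hd : HasDerivAt H 0 r :=
        (hasDerivAt_const r (0 : ℝ)).congr_of_eventuallyEq (hoff r hs)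
      have he : H' r = 0 := by simp only [H']; rw [hz]; ring
      rw [he]; exact hd
  have hle : ∀ r ∈ Ioo a b, H' r ≤ f' r ^ 2 * r - Real.pi ^ 2 * r ^ 2 / ρ ^ 2 * f r ^ 2 * r := by
    intro r hr
    have hr0 : 0 < r := ha.trans hr.1
    by_cases hs : r ∈ tsupport f
    · have hT := htan r hr.1.le (hylt r (hsupp hs) hr.1)
      have hT' : 0 ≤ T r := hT
      have key : f' r ^ 2 * r - Real.pi ^ 2 * r ^ 2 / ρ ^ 2 * f r ^ 2 * r - H' r =
          r * (f' r + Real.pi * r / ρ * T r * f r) ^ 2 + 2 * Real.pi * r / ρ * T r * f r ^ 2 := by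
        simp only [H']
        field_simp
        ring
      have p1 : 0 ≤ r * (f' r + Real.pi * r / ρ * T r * f r) ^ 2 :=
        mul_nonneg hr0.le (sq_nonneg _)
      have p2 : 0 ≤ 2 * Real.pi * r / ρ * T r * f r ^ 2 :=
        mul_nonneg (mul_nonneg (div_nonneg (mul_nonneg (mul_nonneg (by norm_num)
          Real.pi_pos.le) hr0.le) hρ.le) hT') (sq_nonneg _)
      linarith
    · have hz : f r = 0 := image_eq_zero_of_notMem_tsupport hs
      have he : H' r = 0 := by simp only [H']; rw [hz]; ring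
      rw [he, hz]
      have : 0 ≤ f' r ^ 2 * r := mul_nonneg (sq_nonneg _) hr0.le
      simpa using this
  have c3 : Continuous fun r => f' r ^ 2 * r - Real.pi ^ 2 * r ^ 2 / ρ ^ 2 * f r ^ 2 * r :=
    c1.sub c2
  have hmain := intervalIntegral.sub_le_integral_of_hasDeriv_right_of_le hab hcont
    (fun r hr => (hderiv r hr).hasDerivWithinAt)
    c3.continuousOn.integrableOn_Icc hle
  have hHa : H a = 0 := by simp only [H, T]; rw [hy0]; simp
  have hHb : H b = 0 := by simp only [H]; rw [hR b hRb]; simp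
  rw [hHa, hHb, intervalIntegral.integral_sub (c1.intervalIntegrable _ _)
    (c2.intervalIntegrable _ _)] at hmain
  linarith

end Pool.Agent.H59.RK
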